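import Pool.Agent.P.MP_e2f79e_pr.Main
import Pool.Agent.Lib.Gromov.Main
import Pool.Agent.P.MP_e2f79e_pr.Lamp

namespace Pool.Agent.Results.MP_e2f79e_pr.Full

open Pool.Agent.P.MP_e2f79e_pr
open scoped NNReal

theorem result {V : Type*} [MeasurableSpace V] [DiscreteMeasurableSpace V] (G : SimpleGraph V)
    [G.LocallyFinite] (hc : G.Connected) (ht : VertexTransitive G) (ha : Amenable G) (o : V)
    (hg : ¬∃ (C : ℝ) (d : ℕ), ∀ n : ℕ, 1 ≤ n → (growth G o n : ℝ) ≤ C * (n : ℝ) ^ d)
    (lam : ℝ≥0) (hlam : 0 < lam) : tc G o lam < ⊤ := by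
  classical
  obtain ⟨c, hc0, hg⟩ := Pool.Agent.Lib.Gromov.growth_gap hc o (ht o) hg 12
  have := countable_of_connected hc
  exact tc_lt_top hc ht ha o hc0 hg hlam

/-- The hypotheses of `result` hold together (for the lamplighter graph). -/
theorem hypotheses_hold : ∃ (V : Type) (_ : MeasurableSpace V) (_ : DiscreteMeasurableSpace V)
    (G : SimpleGraph V) (_ : G.LocallyFinite) (o : V), G.Connected ∧ VertexTransitive G ∧
      Amenable G ∧ ¬∃ (C : ℝ) (d : ℕ), ∀ n : ℕ, 1 ≤ n → (growth G o n : ℝ) ≤ C * (n : ℝ) ^ d :=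
  Lamp.exists_graph

/-- The conclusion is not automatic: it fails on finite graphs. -/
theorem finite_control {V : Type*} [MeasurableSpace V] (G : SimpleGraph V) (F : Finset V)
    (hF : ∀ v, v ∈ F) (o : V) (lam : ℝ≥0) : tc G o lam = ⊤ :=
  Lamp.tc_finite G (F.finite_toSet.subset fun v _ => hF v) o lam

/-- A finite critical lifetime means survival with positive probability for all longer lifetimes. -/
theorem survival_of_lt {V : Type*} [MeasurableSpace V] (G : SimpleGraph V) (o : V) (lam t : ℝ≥0)
    (h : tc G o lam < t) : frogLaw G lam (Survives t o) ≠ 0 := fun e =>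
  h.not_ge (le_iSup₂_of_le (f := fun (s : ℝ≥0) (_ : frogLaw G lam (Survives s o) = 0) =>
    (s : ENNReal)) t e le_rfl)

/-- Survival and its complement have total mass one: the law is a probability law and survival is
an event. -/
theorem survival_add_compl {V : Type*} [MeasurableSpace V] [DiscreteMeasurableSpace V]
    (G : SimpleGraph V) [G.LocallyFinite] (hc : G.Connected) (h : ∀ v, ∃ w, G.Adj v w) (o : V)
    (lam : ℝ≥0) (t : ℝ) :
    frogLaw G lam (Survives t o) + frogLaw G lam {ω | ω ∉ Survives t o} = 1 := by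
  classical
  have := countable_of_connected hc
  exact (MeasureTheory.measure_add_measure_compl (Lamp.survives_meas t o)).trans
    (Lamp.law_univ G h lam)

end Pool.Agent.Results.MP_e2f79e_pr.Full
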