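import Pool.Agent.P.MP_e2f79e_pr.IMain

namespace Pool.Agent.Results.MP_e2f79e_pr.Isoperimetric

open Pool.Agent.P.MP_e2f79e_pr
open scoped NNReal

theorem result {V : Type*} [MeasurableSpace V] [DiscreteMeasurableSpace V] (G : SimpleGraph V)
    [G.LocallyFinite] (hc : G.Connected) (Δ : ℕ) (hΔ : ∀ v, G.degree v ≤ Δ) (hI : IsoDim G 12)
    (o : V) (lam : ℝ≥0) (hlam : 0 < lam) : tc G o lam < ⊤ := by
  classical
  have := countable_of_connected hc
  exact Iso.tc_lt_top hc hΔ hI o hlam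

end Pool.Agent.Results.MP_e2f79e_pr.Isoperimetric
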